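import Mathlib

/-!
# Hankel determinants of the derivatives of Dirichlet polynomials

`E f l m N a` is the determinant of the Hankel matrix of the derivatives of `f` at `a`, with the
antidiagonal `j + k = m` replaced by the indeterminate `y`. For `f = η` the problem asks whether, as
`N → ∞`, it behaves like a multiple of `(y - η^(l + m)(a)) ^ (m + 1)`. For a Dirichlet polynomial `f` with
`K` nonconstant terms we prove that `E f l m (m + 1 + K) a` is exactly a nonzero multiple of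
`(y - f^(l + m)(a)) ^ (m + 1)`, at every point `a`.

Proof. The Hankel matrix is `V D Vᵀ` with the Vandermonde matrix `V` of the numbers `-log n`, so it has
rank `K`. Its lower right `K × K` block is invertible, and the Schur complement of this block
in the matrix with the indeterminate is `y - f^(l + m)(a)` times the antidiagonal matrix of size `m + 1`.
-/

set_option autoImplicit false

namespace Pool.Agent.Results.MP_ea6299_nt.DirichletPolynomials

open Polynomial Matrix

/-- The polynomial `E_{l, m, N}(a, y)` of the function `f`. -/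
noncomputable def E (f : ℂ → ℂ) (l m N : ℕ) (a : ℂ) : ℂ[X] :=
  (Matrix.of fun j k : Fin N => if (j : ℕ) + k = m then (X : ℂ[X]) else
    C (iteratedDeriv (l + j + k) f a)).det

theorem eval_E (f : ℂ → ℂ) (l m N : ℕ) (a y : ℂ) :
    (E f l m N a).eval y = (Matrix.of fun j k : Fin N => if (j : ℕ) + k = m then y else
      iteratedDeriv (l + j + k) f a).det := by
  rw [E, ← Polynomial.coe_evalRingHom, RingHom.map_det]
  congr 1
  ext j k
  simp only [RingHom.mapMatrix_apply, Matrix.map_apply, Matrix.of_apply,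
    Polynomial.coe_evalRingHom]
  split_ifs <;> simp

/-- Schur complement. -/
theorem det_blocks {m K : ℕ} (V₁ : Matrix (Fin m) (Fin K) ℂ) (V₂ D : Matrix (Fin K) (Fin K) ℂ)
    (J : Matrix (Fin m) (Fin m) ℂ) (h₂ : V₂.det ≠ 0) (hD : D.det ≠ 0) :
    (fromBlocks (V₁ * D * V₁ᵀ + J) (V₁ * D * V₂ᵀ) (V₂ * D * V₁ᵀ) (V₂ * D * V₂ᵀ)).det =
      (V₂ * D * V₂ᵀ).det * J.det := by
  have hu2 : IsUnit V₂.det := isUnit_iff_ne_zero.2 h₂
  have hA : (V₂ * D * V₂ᵀ).det ≠ 0 := by
    rw [det_mul, det_mul, det_transpose]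
    exact mul_ne_zero (mul_ne_zero h₂ hD) h₂
  have hu : IsUnit (V₂ * D * V₂ᵀ).det := isUnit_iff_ne_zero.2 hA
  let _ : Invertible (V₂ * D * V₂ᵀ) := Matrix.invertibleOfIsUnitDet _ hu
  rw [det_fromBlocks₂₂]
  congr 2
  have h1 : V₁ * D * V₂ᵀ = V₁ * V₂⁻¹ * (V₂ * D * V₂ᵀ) := by
    calc V₁ * D * V₂ᵀ = V₁ * (V₂⁻¹ * V₂) * D * V₂ᵀ := by
          rw [Matrix.nonsing_inv_mul _ hu2, Matrix.mul_one]
      _ = _ := by simp only [Matrix.mul_assoc]
  rw [h1, Matrix.mul_assoc (V₁ * V₂⁻¹), mul_invOf_self, Matrix.mul_one]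
  have h2 : V₁ * V₂⁻¹ * (V₂ * D * V₁ᵀ) = V₁ * D * V₁ᵀ := by
    calc V₁ * V₂⁻¹ * (V₂ * D * V₁ᵀ) = V₁ * (V₂⁻¹ * V₂) * D * V₁ᵀ := by
          simp only [Matrix.mul_assoc]
      _ = _ := by rw [Matrix.nonsing_inv_mul _ hu2, Matrix.mul_one]
  rw [h2, add_sub_cancel_left]

/-- The antidiagonal matrix. -/
theorem det_anti (m : ℕ) :
    (Matrix.of fun j k : Fin (m + 1) => if (j : ℕ) + k = m then (1 : ℂ) else 0).det ≠ 0 := by
  have h : (Matrix.of fun j k : Fin (m + 1) => if (j : ℕ) + k = m then (1 : ℂ) else 0) =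
      (1 : Matrix (Fin (m + 1)) (Fin (m + 1)) ℂ).submatrix Fin.revPerm id := by
    ext j k
    simp only [Matrix.of_apply, Matrix.submatrix_apply, id, Matrix.one_apply, Fin.revPerm_apply]
    congr 1
    rw [Fin.ext_iff, Fin.val_rev]
    apply propext
    have := j.2
    have := k.2
    omega
  rw [h, Matrix.det_permute, Matrix.det_one, mul_one]
  have := Equiv.Perm.sign (Fin.revPerm : Equiv.Perm (Fin (m + 1)))
  exact_mod_cast (Units.ne_zero _)

/-- The exponential sums `g k = ∑ w i * x i ^ k`. -/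
theorem det_exp {K : ℕ} (m l : ℕ) (w x : Fin K → ℂ) (hw : ∀ i, w i ≠ 0) (hx : ∀ i, x i ≠ 0)
    (hinj : Function.Injective x) : ∃ c : ℂ, c ≠ 0 ∧ ∀ y : ℂ,
      (Matrix.of fun j k : Fin (m + 1 + K) => if (j : ℕ) + k = m then y else
        ∑ i, w i * x i ^ (l + j + k)).det = c * (y - ∑ i, w i * x i ^ (l + m)) ^ (m + 1) := by
  set V₁ : Matrix (Fin (m + 1)) (Fin K) ℂ := Matrix.of fun j i => x i ^ (j : ℕ) with hV₁
  set V₂ : Matrix (Fin K) (Fin K) ℂ := Matrix.of fun j i => x i ^ (m + 1 + (j : ℕ)) with hV₂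
  set D : Matrix (Fin K) (Fin K) ℂ := Matrix.diagonal fun i => w i * x i ^ l with hDD
  set J : Matrix (Fin (m + 1)) (Fin (m + 1)) ℂ :=
    Matrix.of fun j k => if (j : ℕ) + k = m then (1 : ℂ) else 0 with hJ
  have h₂ : V₂.det ≠ 0 := by
    have h : V₂ = (Matrix.vandermonde x)ᵀ * Matrix.diagonal fun i => x i ^ (m + 1) := by
      ext j i
      rw [Matrix.mul_diagonal]
      simp only [hV₂, Matrix.of_apply, Matrix.transpose_apply, Matrix.vandermonde_apply]
      rw [pow_add, mul_comm]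
    rw [h, Matrix.det_mul, Matrix.det_transpose, Matrix.det_diagonal]
    refine mul_ne_zero (Matrix.det_vandermonde_ne_zero_iff.2 hinj) ?_
    exact Finset.prod_ne_zero_iff.2 fun i _ => pow_ne_zero _ (hx i)
  have hD : D.det ≠ 0 := by
    rw [hDD, Matrix.det_diagonal]
    exact Finset.prod_ne_zero_iff.2 fun i _ => mul_ne_zero (hw i) (pow_ne_zero _ (hx i))
  have hJdet : J.det ≠ 0 := det_anti m
  refine ⟨(V₂ * D * V₂ᵀ).det * J.det, ?_, fun y => ?_⟩
  · rw [det_mul, det_mul, det_transpose]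
    exact mul_ne_zero (mul_ne_zero (mul_ne_zero h₂ hD) h₂) hJdet
  · have h3 := det_blocks V₁ V₂ D ((y - ∑ i, w i * x i ^ (l + m)) • J) h₂ hD
    rw [Matrix.det_smul, Fintype.card_fin] at h3
    rw [← Matrix.det_reindex_self finSumFinEquiv] at h3
    rw [show (V₂ * D * V₂ᵀ).det * J.det * (y - ∑ i, w i * x i ^ (l + m)) ^ (m + 1) =
      (V₂ * D * V₂ᵀ).det * ((y - ∑ i, w i * x i ^ (l + m)) ^ (m + 1) * J.det) by ring, ← h3]
    congr 1
    ext j k
    obtain ⟨j, rfl⟩ := finSumFinEquiv.surjective j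
    obtain ⟨k, rfl⟩ := finSumFinEquiv.surjective k
    have hent : ∀ {p q : ℕ} (A : Matrix (Fin p) (Fin K) ℂ) (B : Matrix (Fin q) (Fin K) ℂ)
        (u : Fin p) (v : Fin q), (A * D * Bᵀ) u v = ∑ i, A u i * (w i * x i ^ l) * B v i := by
      intro p q A B u v
      rw [Matrix.mul_apply]
      refine Finset.sum_congr rfl fun i _ => ?_
      rw [hDD, Matrix.mul_diagonal, Matrix.transpose_apply]
    rw [Matrix.reindex_apply, Matrix.submatrix_apply, Equiv.symm_apply_apply,
      Equiv.symm_apply_apply, Matrix.of_apply]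
    have eL : ∀ u : Fin (m + 1),
        ((finSumFinEquiv (Sum.inl u : Fin (m + 1) ⊕ Fin K) : Fin (m + 1 + K)) : ℕ) = u := by
      intro u
      simp
    have eR : ∀ u : Fin K,
        ((finSumFinEquiv (Sum.inr u : Fin (m + 1) ⊕ Fin K) : Fin (m + 1 + K)) : ℕ) =
          m + 1 + u := by
      intro u
      simp
    rcases j with j | j <;> rcases k with k | k
    · rw [Matrix.fromBlocks_apply₁₁, Matrix.add_apply, Matrix.smul_apply, hent, eL, eL]
      by_cases h : (j : ℕ) + k = m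
      · have hJ1 : J j k = 1 := by simp [hJ, h]
        rw [if_pos h, hJ1, smul_eq_mul, mul_one]
        have : ∑ i, V₁ j i * (w i * x i ^ l) * V₁ k i = ∑ i, w i * x i ^ (l + m) :=
          Finset.sum_congr rfl fun i _ => by
            simp only [hV₁, Matrix.of_apply]
            rw [show l + m = l + ((j : ℕ) + k) by omega]
            ring
        rw [this]
        ring
      · have hJ1 : J j k = 0 := by simp [hJ, h]
        rw [if_neg h, hJ1, smul_zero, add_zero]
        refine Finset.sum_congr rfl fun i _ => ?_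
        simp only [hV₁, Matrix.of_apply]
        ring
    · rw [Matrix.fromBlocks_apply₁₂, hent, eL, eR, if_neg (by omega)]
      refine Finset.sum_congr rfl fun i _ => ?_
      simp only [hV₁, hV₂, Matrix.of_apply]
      ring
    · rw [Matrix.fromBlocks_apply₂₁, hent, eL, eR, if_neg (by omega)]
      refine Finset.sum_congr rfl fun i _ => ?_
      simp only [hV₁, hV₂, Matrix.of_apply]
      ring
    · rw [Matrix.fromBlocks_apply₂₂, hent, eR, eR, if_neg (by omega)]
      refine Finset.sum_congr rfl fun i _ => ?_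
      simp only [hV₂, Matrix.of_apply]
      ring

/-- The derivatives of `n ^ (-s)`. -/
theorem deriv_pow (n : ℕ) (hn : n ≠ 0) (k : ℕ) :
    iteratedDeriv k (fun s : ℂ => (n : ℂ) ^ (-s)) =
      fun s => (-(Complex.log n)) ^ k * (n : ℂ) ^ (-s) := by
  have h : (fun s : ℂ => (n : ℂ) ^ (-s)) = fun s => Complex.exp (-(Complex.log n) * s) := by
    funext s
    rw [Complex.cpow_def_of_ne_zero (by exact_mod_cast hn)]
    congr 1
    ring
  have h' := iteratedDeriv_cexp_const_mul k (-(Complex.log n))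
  rw [← h] at h'
  rw [h']
  funext s
  have h'' := congrFun h s
  rw [h'']

theorem deriv_sum (S : Finset ℕ) (hS : ∀ n ∈ S, 2 ≤ n) (c : ℕ → ℂ) (c₁ : ℂ) (k : ℕ) (hk : 1 ≤ k)
    (a : ℂ) : iteratedDeriv k (fun s : ℂ => c₁ + ∑ n ∈ S, c n * (n : ℂ) ^ (-s)) a =
      ∑ n ∈ S, c n * (n : ℂ) ^ (-a) * (-(Complex.log n)) ^ k := by
  have hdiff : ∀ n ∈ S, ContDiff ℂ k (fun s : ℂ => (n : ℂ) ^ (-s)) := by
    intro n hn
    have h : (fun s : ℂ => (n : ℂ) ^ (-s)) = fun s => Complex.exp (-(Complex.log n) * s) := by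
      funext s
      rw [Complex.cpow_def_of_ne_zero (by have := hS n hn; exact_mod_cast (by omega : n ≠ 0))]
      congr 1
      ring
    rw [h]
    fun_prop
  rw [iteratedDeriv_const_add (by omega : 0 < k) c₁]
  rw [iteratedDeriv_fun_sum (fun n hn => (contDiff_const.mul (hdiff n hn)).contDiffAt)]
  refine Finset.sum_congr rfl fun n hn => ?_
  rw [iteratedDeriv_const_mul_field, deriv_pow n (by have := hS n hn; omega)]
  ring

/-- Let `f(s) = c₁ + ∑ n ∈ S, c n * n ^ (-s)` be a Dirichlet polynomial: `S` is a finite set of integers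
`n ≥ 2` and `c n ≠ 0`. Let `K = |S|`, `l ≥ 1`, `m ≥ 0` and let `a` be any complex number. For
`N = m + 1 + K` the polynomial `E_{l, m, N}(a, y)` of `f` is a nonzero multiple of
`(y - f^(l + m)(a)) ^ (m + 1)`. So, if `f^(l + m)(a) ≠ 0`, all coefficient ratios are defined and equal to
`f^(l + m)(a)`. -/
theorem result (S : Finset ℕ) (hS : ∀ n ∈ S, 2 ≤ n) (c : ℕ → ℂ) (hc : ∀ n ∈ S, c n ≠ 0) (c₁ : ℂ)
    (l m : ℕ) (hl : 1 ≤ l) (a : ℂ) (f : ℂ → ℂ)
    (hf : f = fun s : ℂ => c₁ + ∑ n ∈ S, c n * (n : ℂ) ^ (-s)) :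
    (∃ b : ℂ, b ≠ 0 ∧ E f l m (m + 1 + S.card) a =
      C b * (X - C (iteratedDeriv (l + m) f a)) ^ (m + 1)) ∧
    (iteratedDeriv (l + m) f a ≠ 0 → ∀ n : ℕ, 0 < n → n ≤ m + 1 →
      (E f l m (m + 1 + S.card) a).coeff n ≠ 0 ∧
      ((n : ℂ) - m - 2) * (E f l m (m + 1 + S.card) a).coeff (n - 1) /
        (n * (E f l m (m + 1 + S.card) a).coeff n) = iteratedDeriv (l + m) f a) := by
  have hlog : ∀ n ∈ S, Complex.log n = (Real.log n : ℂ) := by
    intro n _
    rw [← Complex.natCast_log]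
  have key : ∃ b : ℂ, b ≠ 0 ∧ E f l m (m + 1 + S.card) a =
      C b * (X - C (iteratedDeriv (l + m) f a)) ^ (m + 1) := by
    set e := S.equivFin.symm with he
    have hsum : ∀ k, 1 ≤ k → iteratedDeriv k f a =
        ∑ i, (c (e i) * ((e i : ℕ) : ℂ) ^ (-a)) * (-(Complex.log ((e i : ℕ) : ℂ))) ^ k := by
      intro k hk
      rw [hf, deriv_sum S hS c c₁ k hk a, ← Finset.sum_coe_sort S, ← Equiv.sum_comp e]
    obtain ⟨b, hb, hb'⟩ := det_exp m l (fun i => c (e i) * ((e i : ℕ) : ℂ) ^ (-a))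
      (fun i => -(Complex.log ((e i : ℕ) : ℂ)))
      (fun i => by
        have h2 := hS _ (e i).2
        refine mul_ne_zero (hc _ (e i).2) ?_
        rw [Ne, Complex.cpow_eq_zero_iff]
        rintro ⟨h, -⟩
        have : (e i : ℕ) = 0 := by exact_mod_cast h
        omega)
      (fun i => by
        have h2 := hS _ (e i).2
        rw [hlog _ (e i).2, neg_ne_zero]
        have : Real.log ((e i : ℕ) : ℝ) ≠ 0 :=
          (Real.log_pos (by exact_mod_cast (by omega : 1 < (e i : ℕ)))).ne'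
        exact_mod_cast this)
      (fun i j h => by
        have h2 := hS _ (e i).2
        have h2' := hS _ (e j).2
        simp only at h
        rw [hlog _ (e i).2, hlog _ (e j).2, neg_inj] at h
        have h3 : Real.log ((e i : ℕ) : ℝ) = Real.log ((e j : ℕ) : ℝ) := by exact_mod_cast h
        have h4 := Real.log_injOn_pos (Set.mem_Ioi.2 (by exact_mod_cast (by omega : 0 < (e i : ℕ))))
          (Set.mem_Ioi.2 (by exact_mod_cast (by omega : 0 < (e j : ℕ)))) h3
        exact e.injective (Subtype.ext (by exact_mod_cast h4)))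
    refine ⟨b, hb, ?_⟩
    apply Polynomial.funext
    intro y
    rw [eval_E, hsum (l + m) (by omega)]
    simp only [Polynomial.eval_mul, Polynomial.eval_C, Polynomial.eval_pow, Polynomial.eval_sub,
      Polynomial.eval_X]
    rw [← hb' y]
    congr 1
    ext j k
    simp only [Matrix.of_apply]
    split_ifs
    · rfl
    · exact hsum _ (by omega)
  refine ⟨key, fun h0 n hn hnm => ?_⟩
  obtain ⟨b, hb, hE⟩ := key
  obtain ⟨k, rfl⟩ : ∃ k, n = k + 1 := ⟨n - 1, by omega⟩
  have hkm : k ≤ m := by omega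
  set z := iteratedDeriv (l + m) f a with hz
  have hcoef : ∀ i, (E f l m (m + 1 + S.card) a).coeff i =
      b * ((-z) ^ (m + 1 - i) * ((m + 1).choose i : ℂ)) := by
    intro i
    rw [hE, Polynomial.coeff_C_mul, sub_eq_add_neg, ← Polynomial.C_neg,
      Polynomial.coeff_X_add_C_pow]
  have hch : ((m + 1).choose (k + 1) : ℂ) * (k + 1) = (m + 1).choose k * (m + 1 - k) := by
    have h := Nat.choose_succ_right_eq (m + 1) k
    have h' : (((m + 1).choose (k + 1) * (k + 1) : ℕ) : ℂ) =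
        (((m + 1).choose k * (m + 1 - k) : ℕ) : ℂ) := by rw [h]
    rw [Nat.cast_mul, Nat.cast_mul, Nat.cast_sub (by omega)] at h'
    push_cast at h'
    exact h'
  have hne : (E f l m (m + 1 + S.card) a).coeff (k + 1) ≠ 0 := by
    rw [hcoef]
    refine mul_ne_zero hb (mul_ne_zero (pow_ne_zero _ (neg_ne_zero.2 h0)) ?_)
    exact_mod_cast (Nat.choose_pos (by omega)).ne'
  refine ⟨hne, ?_⟩
  rw [div_eq_iff (mul_ne_zero (by exact_mod_cast Nat.succ_ne_zero k) hne)]
  rw [hcoef, hcoef, Nat.add_sub_cancel]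
  have hpow : (-z) ^ (m + 1 - k) = -z * (-z) ^ (m + 1 - (k + 1)) := by
    rw [← pow_succ']
    congr 1
    omega
  rw [hpow]
  generalize (-z) ^ (m + 1 - (k + 1)) = t
  push_cast
  linear_combination (-(b * z * t)) * hch

end Pool.Agent.Results.MP_ea6299_nt.DirichletPolynomials
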